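import Mathlib

/-!
# An infinite boomerang-simple group
-/

set_option autoImplicit false
set_option linter.style.haveILetI false
set_option linter.unusedSimpArgs false

namespace Pool.Agent.Results.MP_80afb3_al.PSLTwoQ

open Set Matrix

open Classical in
/-- The Chabauty topology on the set of subgroups, induced from the product topology on the set
of functions with values in the discrete two-point space. -/
noncomputable abbrev chab (Γ : Type) [Group Γ] : TopologicalSpace (Subgroup Γ) :=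
  TopologicalSpace.induced (fun (H : Subgroup Γ) (g : Γ) => decide (g ∈ H)) inferInstance

/-- `Δ` is recurrent for `γ`. -/
def IsRecurrent {Γ : Type} [Group Γ] (Δ : Subgroup Γ) (γ : Γ) : Prop :=
  ∀ O ∈ @nhds _ (chab Γ) Δ, ∃ n : ℕ, 1 ≤ n ∧ Δ.map (MulAut.conj (γ ^ n)).toMonoidHom ∈ O

/-- `Δ` is a boomerang subgroup. -/
def IsBoomerang {Γ : Type} [Group Γ] (Δ : Subgroup Γ) : Prop := ∀ γ : Γ, IsRecurrent Δ γ

/-- A weak form of recurrence. -/
def Rec {Γ : Type} [Group Γ] (D : Subgroup Γ) : Prop :=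
  ∀ γ : Γ, ∀ a ∈ D, ∃ n : ℕ, 1 ≤ n ∧ (γ ^ n)⁻¹ * a * γ ^ n ∈ D

theorem rec_of_boomerang {Γ : Type} [Group Γ] {D : Subgroup Γ} (h : IsBoomerang D) : Rec D := by
  classical
  intro γ a ha
  letI := chab Γ
  have ho : IsOpen {H : Subgroup Γ | a ∈ H} := by
    have h1 : IsOpen ((fun f : Γ → Bool => f a) ⁻¹' {true}) :=
      (isOpen_discrete {true}).preimage (continuous_apply a)
    refine isOpen_induced_iff.2 ⟨_, h1, ?_⟩
    ext H
    simp
  obtain ⟨n, hn, hm⟩ := h γ _ (ho.mem_nhds ha)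
  refine ⟨n, hn, ?_⟩
  obtain ⟨b, hb, hba⟩ := (hm : a ∈ Subgroup.map (MulAut.conj (γ ^ n)).toMonoidHom D)
  have h2 : γ ^ n * b * (γ ^ n)⁻¹ = a := hba
  rw [← h2]
  have h3 : (γ ^ n)⁻¹ * (γ ^ n * b * (γ ^ n)⁻¹) * γ ^ n = b := by group
  rw [h3]
  exact hb

theorem boomerang_of_inv {Γ : Type} [Group Γ] {D : Subgroup Γ}
    (h : ∀ g : Γ, D.map (MulAut.conj g).toMonoidHom = D) : IsBoomerang D := by
  intro γ O hO
  letI := chab Γ
  refine ⟨1, le_rfl, ?_⟩
  rw [h]
  exact mem_of_mem_nhds hO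

theorem rec_conj {Γ : Type} [Group Γ] {D : Subgroup Γ} (h : Rec D) (g : Γ) :
    Rec (D.map (MulAut.conj g).toMonoidHom) := by
  rintro γ _ ⟨a, ha, rfl⟩
  obtain ⟨n, hn, hm⟩ := h (g⁻¹ * γ * g) a ha
  refine ⟨n, hn, ⟨_, hm, ?_⟩⟩
  change g * (((g⁻¹ * γ * g) ^ n)⁻¹ * a * (g⁻¹ * γ * g) ^ n) * g⁻¹ =
    (γ ^ n)⁻¹ * (g * a * g⁻¹) * γ ^ n
  have h1 : (g⁻¹ * γ * g) ^ n = g⁻¹ * γ ^ n * g := by
    have := conj_pow (i := n) (a := g⁻¹) (b := γ)
    simpa using this
  rw [h1]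
  group

/-- `SL₂(ℚ)` -/
abbrev SL : Type := SpecialLinearGroup (Fin 2) ℚ

/-- upper unipotent matrices -/
def uu (t : ℚ) : SL := ⟨!![1, t; 0, 1], by simp⟩
/-- lower unipotent matrices -/
def vv (t : ℚ) : SL := ⟨!![1, 0; t, 1], by simp⟩
/-- diagonal matrices -/
def dg (x : ℚ) (hx : x ≠ 0) : SL := ⟨!![x, 0; 0, x⁻¹], by simp [hx]⟩

/-- matrix entries -/
def en (A : SL) (i j : Fin 2) : ℚ := A.1 i j

theorem ext2 {A B : SL} (h00 : en A 0 0 = en B 0 0) (h01 : en A 0 1 = en B 0 1)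
    (h10 : en A 1 0 = en B 1 0) (h11 : en A 1 1 = en B 1 1) : A = B := by
  apply Subtype.ext
  ext i j
  fin_cases i <;> fin_cases j
  · exact h00
  · exact h01
  · exact h10
  · exact h11

theorem en_mul (A B : SL) (i j : Fin 2) : en (A * B) i j = en A i 0 * en B 0 j + en A i 1 * en B 1 j := by
  change (A.1 * B.1) i j = _
  rw [Matrix.mul_apply, Fin.sum_univ_two]
  rfl

theorem en_det (A : SL) : en A 0 0 * en A 1 1 - en A 0 1 * en A 1 0 = 1 := by
  have := A.2
  rw [Matrix.det_fin_two] at this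
  exact this

theorem u00 (t : ℚ) : en (uu t) 0 0 = 1 := by simp [en, uu]
theorem u01 (t : ℚ) : en (uu t) 0 1 = t := by simp [en, uu]
theorem u10 (t : ℚ) : en (uu t) 1 0 = 0 := by simp [en, uu]
theorem u11 (t : ℚ) : en (uu t) 1 1 = 1 := by simp [en, uu]
theorem v00 (t : ℚ) : en (vv t) 0 0 = 1 := by simp [en, vv]
theorem v01 (t : ℚ) : en (vv t) 0 1 = 0 := by simp [en, vv]
theorem v10 (t : ℚ) : en (vv t) 1 0 = t := by simp [en, vv]
theorem v11 (t : ℚ) : en (vv t) 1 1 = 1 := by simp [en, vv]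
theorem d00 (x : ℚ) (hx : x ≠ 0) : en (dg x hx) 0 0 = x := by simp [en, dg]
theorem d01 (x : ℚ) (hx : x ≠ 0) : en (dg x hx) 0 1 = 0 := by simp [en, dg]
theorem d10 (x : ℚ) (hx : x ≠ 0) : en (dg x hx) 1 0 = 0 := by simp [en, dg]
theorem d11 (x : ℚ) (hx : x ≠ 0) : en (dg x hx) 1 1 = x⁻¹ := by simp [en, dg]
theorem o00 : en 1 0 0 = 1 := by
  change (1 : Matrix (Fin 2) (Fin 2) ℚ) 0 0 = 1
  simp
theorem o01 : en 1 0 1 = 0 := by
  change (1 : Matrix (Fin 2) (Fin 2) ℚ) 0 1 = 0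
  simp
theorem o10 : en 1 1 0 = 0 := by
  change (1 : Matrix (Fin 2) (Fin 2) ℚ) 1 0 = 0
  simp
theorem o11 : en 1 1 1 = 1 := by
  change (1 : Matrix (Fin 2) (Fin 2) ℚ) 1 1 = 1
  simp

theorem uu_mul (s t : ℚ) : uu s * uu t = uu (s + t) := by
  apply ext2 <;> simp only [en_mul, u00, u01, u10, u11] <;> ring

theorem vv_mul (s t : ℚ) : vv s * vv t = vv (s + t) := by
  apply ext2 <;> simp only [en_mul, v00, v01, v10, v11] <;> ring

theorem uu_zero : uu 0 = 1 := by
  apply ext2 <;> simp only [u00, u01, u10, u11, o00, o01, o10, o11]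

theorem vv_zero : vv 0 = 1 := by
  apply ext2 <;> simp only [v00, v01, v10, v11, o00, o01, o10, o11]

theorem uu_inv (t : ℚ) : (uu t)⁻¹ = uu (-t) := by
  rw [inv_eq_iff_mul_eq_one, uu_mul, add_neg_cancel, uu_zero]

theorem vv_inv (t : ℚ) : (vv t)⁻¹ = vv (-t) := by
  rw [inv_eq_iff_mul_eq_one, vv_mul, add_neg_cancel, vv_zero]

theorem uu_pow (t : ℚ) (n : ℕ) : uu t ^ n = uu (n * t) := by
  induction n with
  | zero => simp [uu_zero]
  | succ n ih =>
    rw [pow_succ, ih, uu_mul]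
    congr 1
    push_cast
    ring

theorem dg_pow (x : ℚ) (hx : x ≠ 0) (n : ℕ) : dg x hx ^ n = dg (x ^ n) (pow_ne_zero n hx) := by
  induction n with
  | zero =>
    rw [pow_zero]
    apply ext2 <;> simp only [d00, d01, d10, d11, o00, o01, o10, o11, pow_zero, inv_one]
  | succ n ih =>
    rw [pow_succ, ih]
    apply ext2 <;> simp only [en_mul, d00, d01, d10, d11, pow_succ, mul_inv] <;> ring

theorem dg_inv (x : ℚ) (hx : x ≠ 0) : (dg x hx)⁻¹ = dg x⁻¹ (inv_ne_zero hx) := by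
  rw [inv_eq_iff_mul_eq_one]
  apply ext2 <;> simp only [en_mul, d00, d01, d10, d11, o00, o01, o10, o11] <;> field_simp <;> simp

theorem inv_eq (A : SL) (B : SL) (h : A * B = 1) : A⁻¹ = B := inv_eq_iff_mul_eq_one.2 h

/-- the explicit inverse -/
def iv (A : SL) : SL := ⟨!![en A 1 1, -en A 0 1; -en A 1 0, en A 0 0], by
  rw [Matrix.det_fin_two]
  simp
  have := en_det A
  linarith⟩

theorem iv00 (A : SL) : en (iv A) 0 0 = en A 1 1 := by simp [en, iv]
theorem iv01 (A : SL) : en (iv A) 0 1 = -en A 0 1 := by simp [en, iv]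
theorem iv10 (A : SL) : en (iv A) 1 0 = -en A 1 0 := by simp [en, iv]
theorem iv11 (A : SL) : en (iv A) 1 1 = en A 0 0 := by simp [en, iv]

theorem inv_iv (A : SL) : A⁻¹ = iv A := by
  apply inv_eq
  have := en_det A
  apply ext2 <;> simp only [en_mul, iv00, iv01, iv10, iv11, o00, o01, o10, o11] <;> linarith

/-- Upper unipotent elements. -/
theorem uu_of_mem {D : Subgroup SL} (h : Rec D) {t : ℚ} (ht : t ≠ 0) (hm : uu t ∈ D) (s : ℚ) :
    uu s ∈ D := by
  -- closed under integer multiples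
  have hz : ∀ (r : ℚ) (k : ℤ), uu r ∈ D → uu (k * r) ∈ D := by
    intro r k hr
    have h1 : uu r ^ k = uu (k * r) := by
      rcases k with k | k
      · rw [Int.ofNat_eq_natCast, zpow_natCast, uu_pow]
        simp
      · rw [zpow_negSucc, uu_pow, uu_inv]
        congr 1
        push_cast
        ring
    rw [← h1]
    exact zpow_mem hr k
  -- closed under division by positive integers
  have hd : ∀ (l : ℕ) (hl : l ≠ 0) (r : ℚ), uu r ∈ D → uu (r / l) ∈ D := by
    intro l hl r hr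
    have hlq : (l : ℚ) ≠ 0 := by exact_mod_cast hl
    obtain ⟨n, hn, h1⟩ := h (dg l hlq) _ hr
    have h2 : (dg l hlq ^ n)⁻¹ * uu r * dg l hlq ^ n = uu (r / (l : ℚ) ^ (2 * n)) := by
      rw [dg_pow, dg_inv]
      have hp : (l : ℚ) ^ n ≠ 0 := pow_ne_zero n hlq
      have h2n : (l : ℚ) ^ (2 * n) = (l : ℚ) ^ n * (l : ℚ) ^ n := by rw [two_mul, pow_add]
      apply ext2 <;> simp only [en_mul, u00, u01, u10, u11, d00, d01, d10, d11, h2n] <;>
        field_simp <;> simp
    rw [h2] at h1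
    have h3 := hz _ ((l : ℤ) ^ (2 * n - 1)) h1
    have h4 : (((l : ℤ) ^ (2 * n - 1) : ℤ) : ℚ) * (r / (l : ℚ) ^ (2 * n)) = r / l := by
      obtain ⟨k, rfl⟩ : ∃ k, n = k + 1 := ⟨n - 1, by omega⟩
      have h5 : 2 * (k + 1) - 1 = 2 * k + 1 := by omega
      rw [h5]
      push_cast
      rw [show 2 * (k + 1) = 2 * k + 1 + 1 by ring, pow_succ (l : ℚ) (2 * k + 1)]
      field_simp
    rwa [h4] at h3
  have h1 : s = ((s / t).num : ℚ) * (t / (s / t).den) := by
    have h3 : ((s / t).den : ℚ) ≠ 0 := by exact_mod_cast (s / t).den_ne_zero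
    have h4 : ((s / t).num : ℚ) = s / t * (s / t).den := by
      rw [← div_eq_iff h3]
      exact Rat.num_div_den (s / t)
    rw [h4]
    field_simp
  rw [h1]
  exact hz _ _ (hd _ (s / t).den_ne_zero t hm)

theorem top_of_unip {D : Subgroup SL} (hu : ∀ t, uu t ∈ D) (hv : ∀ t, vv t ∈ D) : D = ⊤ := by
  have h1 : ∀ A : SL, en A 1 0 ≠ 0 → A ∈ D := by
    intro A hc
    have hdet := en_det A
    have h2 : A = uu ((en A 0 0 - 1) / en A 1 0) * vv (en A 1 0) *
        uu ((en A 1 1 - 1) / en A 1 0) := by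
      apply ext2 <;> simp only [en_mul, u00, u01, u10, u11, v00, v01, v10, v11]
      · field_simp
        ring
      · field_simp
        linear_combination (-1 : ℚ) * hdet
      · field_simp
        ring
      · field_simp
        ring
    rw [h2]
    exact mul_mem (mul_mem (hu _) (hv _)) (hu _)
  rw [eq_top_iff]
  intro A _
  by_cases hc : en A 1 0 = 0
  · have ha : en A 0 0 ≠ 0 := by
      intro ha
      have hdet := en_det A
      rw [ha, hc] at hdet
      simp at hdet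
    have h2 : vv 1 * A ∈ D := by
      apply h1
      rw [en_mul, v10, v11, hc]
      simpa using ha
    have h3 := mul_mem (hv (-1)) h2
    rwa [← mul_assoc, vv_mul, neg_add_cancel, vv_zero, one_mul] at h3
  · exact h1 A hc

theorem main1 {D : Subgroup SL} (h : Rec D) {A : SL} (hA : A ∈ D) (hc : en A 1 0 ≠ 0)
    (hd : en A 1 1 = 0) : D = ⊤ := by
  have hdet := en_det A
  rw [hd, mul_zero, zero_sub] at hdet
  -- first step: an upper triangular element
  obtain ⟨n, hn, h1⟩ := h (dg 2 two_ne_zero) A hA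
  have h2 := mul_mem h1 (inv_mem hA)
  rw [dg_pow, dg_inv, inv_iv] at h2
  obtain ⟨z, hz⟩ : ∃ z : ℚ, z = 2 ^ n := ⟨_, rfl⟩
  have hz1 : 1 < z := by rw [hz]; exact one_lt_pow₀ (by norm_num) (by omega)
  have hz0 : z ≠ 0 := by linarith
  have hC : ∀ (hz' : (2 : ℚ) ^ n ≠ 0), dg (2 ^ n)⁻¹ (inv_ne_zero hz') * A * dg (2 ^ n) hz' * iv A =
      dg z⁻¹ (inv_ne_zero hz0) * A * dg z hz0 * iv A := by
    subst hz
    intro _
    rfl
  rw [hC] at h2
  obtain ⟨Cm, hCm⟩ : ∃ Cm, Cm = dg z⁻¹ (inv_ne_zero hz0) * A * dg z hz0 * iv A := ⟨_, rfl⟩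
  rw [← hCm] at h2
  have c00 : en Cm 0 0 = z⁻¹ * z⁻¹ := by
    rw [hCm]
    simp only [en_mul, d00, d01, d10, d11, iv00, iv01, iv10, iv11, hd]
    linear_combination (z⁻¹ * z⁻¹) * hdet
  have c10 : en Cm 1 0 = 0 := by
    rw [hCm]
    simp only [en_mul, d00, d01, d10, d11, iv00, iv01, iv10, iv11, hd]
    ring
  have c11 : en Cm 1 1 = z * z := by
    rw [hCm]
    simp only [en_mul, d00, d01, d10, d11, iv00, iv01, iv10, iv11, hd, inv_inv]
    linear_combination (z * z) * hdet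
  -- second step: a unipotent element
  obtain ⟨m, hm, h3⟩ := h (uu 1) Cm h2
  have h4 := mul_mem h3 (inv_mem h2)
  rw [uu_pow, uu_inv, inv_iv, mul_one] at h4
  have h5 : uu (-(m : ℚ)) * Cm * uu m * iv Cm = uu (m * (z⁻¹ * z⁻¹ * (z⁻¹ * z⁻¹) - 1)) := by
    apply ext2 <;>
      simp only [en_mul, u00, u01, u10, u11, iv00, iv01, iv10, iv11, c00, c10, c11]
    · field_simp
      ring
    · field_simp
      ring
    · ring
    · field_simp
      ring
  rw [h5] at h4
  have ht : (m : ℚ) * (z⁻¹ * z⁻¹ * (z⁻¹ * z⁻¹) - 1) ≠ 0 := by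
    have hm0 : (m : ℚ) ≠ 0 := by exact_mod_cast (show m ≠ 0 by omega)
    refine mul_ne_zero hm0 ?_
    have h6 : z⁻¹ < 1 := inv_lt_one_of_one_lt₀ hz1
    have h7 : 0 < z⁻¹ := by positivity
    have h8 : z⁻¹ * z⁻¹ < 1 := by nlinarith
    have h9 : 0 < z⁻¹ * z⁻¹ := by positivity
    have h10 : z⁻¹ * z⁻¹ * (z⁻¹ * z⁻¹) < 1 := by nlinarith
    linarith
  have hu : ∀ t, uu t ∈ D := uu_of_mem h ht h4
  refine top_of_unip hu fun t => ?_
  -- conjugate by `A`
  have h6 : vv t = uu (-(en A 0 0 / en A 1 0)) * (A * uu (-(t / en A 1 0 ^ 2)) * A⁻¹) *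
      uu (en A 0 0 / en A 1 0) := by
    rw [inv_iv]
    apply ext2 <;>
      simp only [en_mul, u00, u01, u10, u11, v00, v01, v10, v11, iv00, iv01, iv10, iv11, hd]
    · field_simp
      linear_combination (-(en A 1 0) ^ 2) * hdet
    · field_simp
      ring
    · field_simp
      ring
    · field_simp
      linear_combination (-(en A 1 0) ^ 2) * hdet
  rw [h6]
  exact mul_mem (mul_mem (hu _) (mul_mem (mul_mem hA (hu _)) (inv_mem hA))) (hu _)

theorem top_of_conj {D : Subgroup SL} {g : SL} (h : D.map (MulAut.conj g).toMonoidHom = ⊤) :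
    D = ⊤ := by
  rw [eq_top_iff]
  intro A _
  have h1 : g * A * g⁻¹ ∈ D.map (MulAut.conj g).toMonoidHom := by rw [h]; trivial
  obtain ⟨B, hB, hBA⟩ := h1
  have h2 : g * B * g⁻¹ = g * A * g⁻¹ := hBA
  have h3 : B = A := by simpa using h2
  rwa [h3] at hB

theorem main2 {D : Subgroup SL} (h : Rec D) {A : SL} (hA : A ∈ D) (hc : en A 1 0 ≠ 0) :
    D = ⊤ := by
  let g : SL := uu (en A 1 1 / en A 1 0)
  refine top_of_conj (g := g) (main1 (rec_conj h g) (A := g * A * g⁻¹) ⟨A, hA, rfl⟩ ?_ ?_)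
  · simp only [g, uu_inv, en_mul, u00, u01, u10, u11]
    simpa using hc
  · simp only [g, uu_inv, en_mul, u00, u01, u10, u11]
    field_simp
    ring

/-- the Weyl element -/
def ww : SL := ⟨!![0, 1; -1, 0], by simp⟩

theorem w00 : en ww 0 0 = 0 := by simp [en, ww]
theorem w01 : en ww 0 1 = 1 := by simp [en, ww]
theorem w10 : en ww 1 0 = -1 := by simp [en, ww]
theorem w11 : en ww 1 1 = 0 := by simp [en, ww]

theorem main3 {D : Subgroup SL} (h : Rec D) {A : SL} (hA : A ∈ D)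
    (hns : ¬ (en A 0 1 = 0 ∧ en A 1 0 = 0 ∧ en A 0 0 = en A 1 1)) : D = ⊤ := by
  by_cases hc : en A 1 0 = 0
  · by_cases hb : en A 0 1 = 0
    · have had : en A 0 0 ≠ en A 1 1 := fun h' => hns ⟨hb, hc, h'⟩
      refine top_of_conj (g := vv 1) (main2 (rec_conj h _) (A := vv 1 * A * (vv 1)⁻¹)
        ⟨A, hA, rfl⟩ ?_)
      simp only [vv_inv, en_mul, v00, v01, v10, v11, hc, hb]
      intro h'
      apply had
      linarith
    · refine top_of_conj (g := ww) (main2 (rec_conj h _) (A := ww * A * ww⁻¹)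
        ⟨A, hA, rfl⟩ ?_)
      simp only [inv_iv, en_mul, w00, w01, w10, w11, iv00, iv01, iv10, iv11]
      simpa using hb
  · exact main2 h hA hc

/-! ### The projective group -/

/-- `PSL₂(ℚ)` -/
abbrev PSL : Type := SL ⧸ (Subgroup.center SL)

theorem scalar_central {A : SL} (h01 : en A 0 1 = 0) (h10 : en A 1 0 = 0)
    (hd : en A 0 0 = en A 1 1) : A ∈ Subgroup.center SL := by
  rw [Subgroup.mem_center_iff]
  intro B
  apply ext2 <;> simp only [en_mul, h01, h10, hd] <;> ring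

theorem uu_central {t : ℚ} (h : uu t ∈ Subgroup.center SL) : t = 0 := by
  rw [Subgroup.mem_center_iff] at h
  have h1 := congrArg (fun B => en B 0 0) (h (vv 1))
  simp only [en_mul, u00, u01, u10, u11, v00, v01, v10, v11] at h1
  linarith

theorem infinite_PSL : Infinite PSL := by
  refine Infinite.of_injective (fun t : ℚ => (QuotientGroup.mk (uu t) : PSL)) ?_
  intro s t hst
  have h1 : (uu s)⁻¹ * uu t ∈ Subgroup.center SL := QuotientGroup.eq.1 hst
  rw [uu_inv, uu_mul] at h1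
  have := uu_central h1
  linarith

theorem countable_PSL : Countable PSL := by
  have h1 : Countable (Matrix (Fin 2) (Fin 2) ℚ) :=
    inferInstanceAs (Countable (Fin 2 → Fin 2 → ℚ))
  have h2 : Countable SL := Subtype.countable
  exact inferInstanceAs (Countable (Quotient _))

theorem boomerang_PSL (Δ : Subgroup PSL) (h : IsBoomerang Δ) : Δ = ⊥ ∨ Δ = ⊤ := by
  by_cases hbot : Δ = ⊥
  · exact Or.inl hbot
  right
  have hrec := rec_of_boomerang h
  let π : SL →* PSL := QuotientGroup.mk' _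
  have hπ : Function.Surjective π := QuotientGroup.mk'_surjective _
  have hD : Rec (Δ.comap π) := by
    intro γ a ha
    obtain ⟨n, hn, h1⟩ := hrec (π γ) (π a) ha
    refine ⟨n, hn, ?_⟩
    rw [Subgroup.mem_comap, map_mul, map_mul, map_inv, map_pow]
    exact h1
  obtain ⟨⟨x, hx⟩, hx2⟩ := Subgroup.ne_bot_iff_exists_ne_one.1 hbot
  have hx1 : x ≠ 1 := fun h => hx2 (Subtype.ext h)
  obtain ⟨A, rfl⟩ := hπ x
  have htop : Δ.comap π = ⊤ := by
    refine main3 hD (A := A) hx ?_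
    rintro ⟨h01, h10, hd⟩
    exact hx1 ((QuotientGroup.eq_one_iff A).2 (scalar_central h01 h10 hd))
  rw [eq_top_iff]
  intro y _
  obtain ⟨B, rfl⟩ := hπ y
  have : B ∈ Δ.comap π := by rw [htop]; trivial
  exact this

/-- There is an infinite countable group whose only boomerang subgroups are the trivial subgroup
and the whole group (namely `PSL₂(ℚ)`). -/
theorem result : ∃ (Γ : Type) (_ : Group Γ), Infinite Γ ∧ Countable Γ ∧
    ∀ Δ : Subgroup Γ, IsBoomerang Δ ↔ Δ = ⊥ ∨ Δ = ⊤ := by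
  refine ⟨PSL, inferInstance, infinite_PSL, countable_PSL, fun Δ => ⟨boomerang_PSL Δ, ?_⟩⟩
  rintro (rfl | rfl)
  · exact boomerang_of_inv fun g => Subgroup.map_bot _
  · exact boomerang_of_inv fun g => Subgroup.map_top_of_surjective _ (MulAut.conj g).surjective

end Pool.Agent.Results.MP_80afb3_al.PSLTwoQ
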